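import Pool.Agent.TH971.SR.L3
import Pool.Agent.W282.LF.Top

/-!
# MP_0704bf_ag: Zilber-Pink for variations of Hodge structure given by random families of elliptic
curves with level structures of any level over pull-backs of arbitrary varieties

`B ⊆ P^N` is an arbitrary projective variety over the algebraic numbers of dimension at most `m`
(`DimLE`): the set of zeros of a family `G` of forms with algebraic coefficients. `V` is an
arbitrary irreducible subvariety of `ℂ^r` over the complex numbers, of any dimension `d`.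

Let `Γ_i` be subgroups of `SL_2 (ℝ)` commensurable with `SL_2 (ℤ)`, `X_i` the modular curve
`Γ_i \ ℍ`, for `i = 1, …, n`, and let `1 = g_{i,0}, g_{i,1}, …, g_{i,D i}` be modular functions for
`Γ_i`, holomorphic on the upper half plane. They satisfy the following conditions (`System`), where
`jj = j = E₄³ / Δ` is the elliptic modular function.

* `g_{i,a}` is integral over `ℂ[jj]`,
* there is a combination `s_i = ∑ b_a g_{i,a}` with integral coefficients whose order of pole at
  every cusp is the maximum of the orders of the functions `g_{i,a}` (almost all combinations have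
  this property), so that the functions `g_{i,a} / s_i` are integral over the local ring of `P^1`
  at `jj = ∞`.

These are the only conditions which are used; no rationality of the functions is required. For
example `g_{i,a}` can be a basis of `L (D_i)`, where `D_i` is any effective divisor on the
compactification of `X_i` supported on cusps, or `g_{i,0} = 1, g_{i,1} = t_i` with a Hauptmodul
`t_i` with pole at a cusp of a curve `X_i` of genus `0` (`t_i = jj`, or `t_i = λ`, …).

A vector `c` of integers gives

* a rational map `F_c = (N_1 / M_1, …, N_r / M_r)` from `B` to `ℂ^r`, where `N_j, M_j` are arbitrary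
  forms of degree `d_j` in `y_0, …, y_N` with integral coefficients (`comp`),
* for every `i` the correspondence `∑_a P_{i,a} (y) g_{i,a} (z_i) = 0` between `B` and `X_i`, where
  the `P_{i,a}` are arbitrary forms of degree `e_i ≥ 1` with integral coefficients (`corr`).

Let `X_c = total G g c V` be the set of all points `(y, z)` of `B × ℍ^n` such that the
multihomogenizations of all the polynomials in the ideal of `V` vanish at `N_j (y), M_j (y)` (for
example all points with `F_c (y) ∈ V`; for `V = {0}` the complete intersections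
`N_1 = … = N_r = 0`), and all the correspondences hold. Its image `S_c` in
`B × X_1 × … × X_n` is a closed subvariety of expected dimension `m - (r - d)`. It carries the
polarizable variations of Hodge structure `𝕍 = ⊕ 𝕍_i`, where `𝕍_i` is the pull-back of a variation
of Hodge structure on `X_i` with period domain `ℍ`: `R¹π_* ℤ` of a family of elliptic curves with
level structure, `R²π_* ℤ` of a family of K3 surfaces of Picard number `19`, and so on. If `X_i` has
genus `0` and `g_{i,1} = t_i` is a Hauptmodul, then this is the pull-back of the family over `X_i`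
under the rational map `t_i = - P_{i,0} / P_{i,1}` from `B` to `X_i`; if this is the case for all
`i` then `S_c` is an open part of `F_c⁻¹(V) ⊆ B`. (For `r = 0` and `t_i = jj` for all `i` one gets
the maps of MP_22337f_ag ImagesOfVarieties.)

The period map `Φ` of `𝕍` is (up to finite maps) the map from `S_c` to `Y(1)^n = ℂ^n` given by
`jj z_1, …, jj z_n`. A Hodge subvariety of dimension `t` is given by a map `cls` from the
coordinates onto `t` classes: the constant coordinates are special points, and the coordinates of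
class `l` are `j (g_i z_l)` with fixed integral matrices `g_i` of positive determinant and a free
parameter `z_l` in the upper half plane. More generally we allow for any finite set `Γ` of complex
numbers constants which are special, isogenous to an element of `Γ`, or integral over `ℤ[Γ]`
(`ModularDatum`). For `Γ = ∅` these are all special subvarieties (and some more).

Theorem: for a positive proportion of the vectors `c` (in every box, in every residue class) there
are no atypical intersections: for every `ρ` every irreducible closed subset `W` of the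
intersection of `Φ (S_c)` with the union of all special subvarieties `Z` of codimension at least `ρ`
has dimension at most `m - (r - d) - ρ`, and the same bound holds for the irreducible closed subsets
`W` of `Φ⁻¹ (Z)`. It follows that `codim Φ (W) ≥ codim Φ (S) + codim Z` for all special subvarieties
`W` for `𝕍` of all components `S` of `S_c` of dimension `m - (r - d)` (`W` a component of
`Φ⁻¹ (Z)`): the fibres of `Φ` on `W` have at least the dimension `f` of the general fibres of `Φ` on
`S`, so `dim Φ (W) ≤ dim S - ρ - f = dim Φ (S) - ρ`. So there is no atypical special subvariety,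
except possibly those contained in the singular locus of `S` for `𝕍`, a proper closed subset, in
which every special subvariety is atypical by definition.
-/

namespace Pool.Agent.Results.MP_0704bf_ag.RandomLevelStructures

open MvPolynomial Pool.Agent.W282.ZP H294ZP UpperHalfPlane

/-- The value at `y` of the form of degree `d` with integral coefficients `c u`, the monomials of
degree `d` in `y_0, …, y_N` being indexed by the multisets `u` of size `d`. -/
noncomputable def value {N d : ℕ} (c : Sym (Fin (N + 1)) d → ℤ) (y : Fin (N + 1) → ℂ) : ℂ :=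
  ∑ u : Sym (Fin (N + 1)) d, (c u : ℂ) * ((u : Multiset (Fin (N + 1))).map y).prod

/-- `y` is a vector of homogeneous coordinates of a point of the projective algebraic set `B`
defined by the forms `G k`. -/
def OnB {N : ℕ} {κ : Type*} (G : κ → MvPolynomial (Fin (N + 1)) ℂ) (y : Fin (N + 1) → ℂ) : Prop :=
  y ≠ 0 ∧ ∀ k, eval y (G k) = 0

/-- The projective algebraic set defined by the forms `G k` has dimension at most `m`: it does not
meet some linear subspace defined by `m + 1` linear forms. -/
def DimLE {N : ℕ} {κ : Type*} (G : κ → MvPolynomial (Fin (N + 1)) ℂ) (m : ℕ) : Prop :=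
  ∃ t : Fin (m + 1) → Fin (N + 1) → ℂ, ∀ y, OnB G y → ∃ b, ∑ j, t b j * y j ≠ 0

/-- A special subvariety of `Y(1)^n = ℂ^n` of dimension `t` (with more constants allowed): a map
`cls` from the coordinates onto `t` classes (`none` for constant coordinates), an integral matrix of
positive determinant for every coordinate, and a constant for every coordinate, which is a special
point, isogenous to an element of `Γ`, or integral over `ℤ[Γ]`. -/
structure ModularDatum (Γ : Finset ℂ) (n t : ℕ) where
  cls : Fin n → Option (Fin t)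
  surj : ∀ l : Fin t, ∃ i, cls i = some l
  mat : Fin n → Matrix (Fin 2) (Fin 2) ℤ
  det_pos : ∀ i, 0 < (mat i).det
  const : Fin n → ℂ
  allowed : ∀ i, AllowedConst Γ (const i)

/-- The points of the special subvariety: the constant coordinates are the given constants, and the
coordinates of class `l` are `j (g_i z_l)`, with a free parameter `z_l` in the upper half plane. -/
def ModularDatum.locus {Γ : Finset ℂ} {n t : ℕ} (Z : ModularDatum Γ n t) : Set (Fin n → ℂ) :=
  {x | ∃ z : Fin t → ℍ, ∀ i, (Z.cls i = none → x i = Z.const i) ∧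
    ∀ l, Z.cls i = some l → ∃ w : ℍ,
      (w : ℂ) * (Z.mat i 1 0 * z l + Z.mat i 1 1) = Z.mat i 0 0 * z l + Z.mat i 0 1 ∧
      x i = jj w}

/-- The point `x` of `Y(1)^n` is in a special subvariety of codimension at least `ρ`. -/
def InSpecial (Γ : Finset ℂ) {n : ℕ} (x : Fin n → ℂ) (ρ : ℕ) : Prop :=
  ∃ (t : ℕ) (Z : ModularDatum Γ n t), ρ + t ≤ n ∧ x ∈ Z.locus

/-- Functions `1 = g_{i,0}, …, g_{i,D i}` on the upper half plane for every `i = 1, …, n`, integral
over the ring of polynomials in the elliptic modular function, such that for a combination `s_i`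
with integral coefficients all the functions `g_{i,a}` satisfy an equation
`∑ k, A_k (jj) g ^ k s ^ (M - k) = 0` with polynomials `A_k`, where `A_M ≠ 0` has the largest
degree. -/
structure System {n : ℕ} (D : Fin n → ℕ) (g : (i : Fin n) → Fin (D i + 1) → ℍ → ℂ) : Prop where
  one : ∀ i z, g i 0 z = 1
  regular : ∀ i a, ∃ (M : ℕ) (A : Fin M → Polynomial ℂ), ∀ z : ℍ,
    g i a z ^ M + ∑ k : Fin M, (A k).eval (jj z) * g i a z ^ (k : ℕ) = 0
  cusps : ∀ i, ∃ b : Fin (D i + 1) → ℤ, ∀ a, ∃ (M : ℕ) (A : Fin (M + 1) → Polynomial ℂ),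
    (∀ k, (A k).natDegree ≤ (A (Fin.last M)).natDegree) ∧ A (Fin.last M) ≠ 0 ∧
    ∀ z : ℍ, ∑ k : Fin (M + 1), (A k).eval (jj z) *
      (g i a z ^ (k : ℕ) * (∑ a, (b a : ℂ) * g i a z) ^ (M - (k : ℕ))) = 0

/-- The index set of the integral coefficients of the forms `N_j, M_j` of degree `d_j` and `P_{i,a}`
of degree `e_i`. -/
abbrev Idx {n : ℕ} (N r : ℕ) (D : Fin n → ℕ) (d : Fin r → ℕ) (e : Fin n → ℕ) : Type :=
  (Σ x : Fin r × Fin 2, Sym (Fin (N + 1)) (d x.1)) ⊕
    (Σ x : (Σ i : Fin n, Fin (D i + 1)), Sym (Fin (N + 1)) (e x.1))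

/-- The coefficient vectors. -/
abbrev Coeffs {n : ℕ} (N r : ℕ) (D : Fin n → ℕ) (d : Fin r → ℕ) (e : Fin n → ℕ) : Type :=
  Idx N r D d e → ℤ

variable {N n r : ℕ} {D : Fin n → ℕ} {d : Fin r → ℕ} {e : Fin n → ℕ}

/-- The value of the numerator (`s = 0`) or denominator (`s = 1`) of the `j`-th component of `F_c`
at `y`. -/
noncomputable def comp (c : Coeffs N r D d e) (s : Fin 2) (y : Fin (N + 1) → ℂ) (j : Fin r) : ℂ :=
  value (fun u => c (Sum.inl ⟨(j, s), u⟩)) y

/-- The value `∑_a P_{i,a} (y) g_{i,a} (z_i)`. -/
noncomputable def corr (g : (i : Fin n) → Fin (D i + 1) → ℍ → ℂ) (c : Coeffs N r D d e)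
    (y : Fin (N + 1) → ℂ) (z : Fin n → ℍ) (i : Fin n) : ℂ :=
  ∑ a : Fin (D i + 1), value (fun u => c (Sum.inr ⟨⟨i, a⟩, u⟩)) y * g i a (z i)

/-- The set `X_c` of all points `(y, z)` of `B × ℍ^n`, such that the multihomogenizations of all the
polynomials `h` in the ideal of `V` vanish, evaluated at the values of the numerators and
denominators of `F_c` at `y`, and all the correspondences hold at `(y, z)`. -/
def total {κ : Type*} (G : κ → MvPolynomial (Fin (N + 1)) ℂ)
    (g : (i : Fin n) → Fin (D i + 1) → ℍ → ℂ) (c : Coeffs N r D d e)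
    (V : Set (Fin r → ℂ)) : Set ((Fin (N + 1) → ℂ) × (Fin n → ℍ)) :=
  {z | OnB G z.1 ∧ (∀ h ∈ idealOf V, ∑ v ∈ h.support, h.coeff v *
    ∏ j, (comp c 0 z.1 j ^ (v j) * comp c 1 z.1 j ^ (h.degreeOf j - v j)) = 0) ∧
    ∀ i, corr g c z.1 z.2 i = 0}

/-- For all `ρ` every irreducible closed subset `W` of the intersection of the image of `X` in
`Y(1)^n` with the union of the special subvarieties of codimension at least `ρ` satisfies
`dim W + ρ + r ≤ m + d`, and the same holds for the irreducible closed subsets of the set of all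
points `(y, x)` of `B × Y(1)^n` with `x = (jj z_1, …, jj z_n)`, `(y, z) ∈ X`, such that `x` is in
this union.

The first statement is more precisely about the irreducible closed sets `W`, such that all points of
`W` outside of some hypersurface `p = 0`, which does not contain `W`, are in this intersection. In
the second statement `W` is an irreducible closed set of vectors, such that all vectors in `W`
outside of some hypersurface, which does not contain `W`, are the vectors of coordinates (numbered
in any way) of such points `(y, x)` over the affine part `y_{j₀} = 1` of `P^N`. -/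
def NoAtypical (Γ : Finset ℂ) (X : Set ((Fin (N + 1) → ℂ) × (Fin n → ℍ))) (m r : ℕ)
    (d : Cardinal) : Prop :=
  ∀ ρ : ℕ,
    (∀ (W : Set (Fin n → ℂ)) (p : MvPolynomial (Fin n) ℂ),
      (∀ x ∈ W, eval x p ≠ 0 → (∃ z ∈ X, ∀ i, x i = jj (z.2 i)) ∧ InSpecial Γ x ρ) →
      zcl W ⊆ W → (idealOf W).IsPrime → p ∉ idealOf W →
      zdim W + (ρ : Cardinal) + (r : Cardinal) ≤ (m : Cardinal) + d) ∧
    ∀ (j₀ : Fin (N + 1)) (s : ℕ) (σ : Fin s ≃ Fin (N + 1) ⊕ Fin n) (W : Set (Fin s → ℂ))
      (p : MvPolynomial (Fin s) ℂ),
      (∀ w ∈ W, eval w p ≠ 0 →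
        ∃ z ∈ X, z.1 j₀ = 1 ∧ InSpecial Γ (fun i => jj (z.2 i)) ρ ∧
          ∀ i, w i = Sum.elim z.1 (fun i => jj (z.2 i)) (σ i)) →
      zcl W ⊆ W → (idealOf W).IsPrime → p ∉ idealOf W →
      zdim W + (ρ : Cardinal) + (r : Cardinal) ≤ (m : Cardinal) + d

/-- coordinates of the same class are isogenous -/
theorem rel_of_class {Γ : Finset ℂ} {n t : ℕ} (Z : ModularDatum Γ n t) {x : Fin n → ℂ}
    (hx : x ∈ Z.locus) {i i' : Fin n} {l : Fin t} (hi : Z.cls i = some l)
    (hi' : Z.cls i' = some l) : IsIntegral (Algebra.adjoin ℤ {x i}) (x i') := by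
  obtain ⟨z, hz⟩ := hx
  obtain ⟨w, hw, hxw⟩ := (hz i).2 l hi
  obtain ⟨w', hw', hxw'⟩ := (hz i').2 l hi'
  rw [hxw, hxw']
  have hdet := Z.det_pos i
  have hdet' := Z.det_pos i'
  rw [Matrix.det_fin_two] at hdet hdet'
  set a := Z.mat i 0 0
  set b := Z.mat i 0 1
  set c := Z.mat i 1 0
  set d := Z.mat i 1 1
  set a' := Z.mat i' 0 0
  set b' := Z.mat i' 0 1
  set c' := Z.mat i' 1 0
  set d' := Z.mat i' 1 1
  have hn := denom_ne (z := z l) hdet
  apply isogenous_integral w w' (a' * d - b' * c) (-(a' * b) + b' * a) (c' * d - d' * c)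
    (-(c' * b) + d' * a)
  · have : (a' * d - b' * c) * (-(c' * b) + d' * a) - (-(a' * b) + b' * a) * (c' * d - d' * c) =
        (a * d - b * c) * (a' * d' - b' * c') := by ring
    rw [this]
    exact mul_pos hdet hdet'
  · have key : (w' : ℂ) * (((c' * d - d' * c : ℤ) : ℂ) * w + ((-(c' * b) + d' * a : ℤ) : ℂ)) *
        ((c : ℂ) * z l + d) =
        (((a' * d - b' * c : ℤ) : ℂ) * w + ((-(a' * b) + b' * a : ℤ) : ℂ)) *
        ((c : ℂ) * z l + d) := by
      push_cast
      linear_combination ((w' : ℂ) * ((c' : ℂ) * d - d' * c) - ((a' : ℂ) * d - b' * c)) * hw +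
        ((a : ℂ) * d - b * c) * hw'
    exact mul_right_cancel₀ hn key

/-- scaling of the coordinates of the base -/
theorem scale_mem {κ : Type*} {G : κ → MvPolynomial (Fin (N + 1)) ℂ}
    (hhom : ∀ k, ∃ e, (G k).IsHomogeneous e) {g : (i : Fin n) → Fin (D i + 1) → ℍ → ℂ}
    {c : Coeffs N r D d e} {V : Set (Fin r → ℂ)}
    {y : Fin (N + 1) → ℂ} {z : Fin n → ℍ} (h : (y, z) ∈ total G g c V) {a : ℂ} (ha : a ≠ 0) :
    (a • y, z) ∈ total G g c V := by
  obtain ⟨⟨h1, h2⟩, h3, h3'⟩ := h
  refine ⟨⟨smul_ne_zero ha h1, fun k => ?_⟩, fun g hg => ?_, fun i => ?_⟩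
  · obtain ⟨w, hw⟩ := hhom k
    change eval (a • y) (G k) = 0
    rw [Pool.Agent.W466.ZC.eval_smul hw, h2 k, mul_zero]
  · have h4 : ∀ (s : Fin 2) (j : Fin r), comp c s (a • y) j = a ^ d j * comp c s y j :=
      fun s j => Pool.Agent.W466.ZP.ev_smul (fun u => c (Sum.inl ⟨(j, s), u⟩)) a y
    have h5 := Pool.Agent.TH971.SR.homV_scale (fun j => comp c 0 y j) (fun j => comp c 1 y j)
      (fun j => a ^ d j) g
    have h6 : Pool.Agent.TH971.SP.homV (fun j => comp c 0 y j) (fun j => comp c 1 y j) g = 0 :=
      h3 g hg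
    rw [h6, mul_zero] at h5
    have h7 : Pool.Agent.TH971.SP.homV (fun j => comp c 0 (a • y) j)
        (fun j => comp c 1 (a • y) j) g = 0 := by
      rw [← h5]
      congr 1
      · funext j
        exact h4 0 j
      · funext j
        exact h4 1 j
    exact h7
  · have h4 : corr g c (a • y) z i = a ^ e i * corr g c y z i := by
      unfold corr
      rw [Finset.mul_sum]
      refine Finset.sum_congr rfl fun b _ => ?_
      have h5 : value (fun u => c (Sum.inr ⟨⟨i, b⟩, u⟩)) (a • y) =
          a ^ e i * value (fun u => c (Sum.inr ⟨⟨i, b⟩, u⟩)) y :=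
        Pool.Agent.W466.ZP.ev_smul (fun u => c (Sum.inr ⟨⟨i, b⟩, u⟩)) a y
      rw [h5, mul_assoc]
    change corr g c (a • y) z i = 0
    rw [h4, h3' i, mul_zero]

/-- Let `B` be any projective variety of dimension at most `m` over the algebraic numbers, and `g`
any functions as above. For every irreducible `V ⊂ ℂ^r`, all degrees and every finite set `Γ`, in
every residue class modulo any `Q₀` and in every box `H u + [-ε H, ε H]` there is a positive
proportion of integer vectors `c` for which there are no atypical intersections. -/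
theorem result {κ : Type} {N n : ℕ} (m r : ℕ) (G : κ → MvPolynomial (Fin (N + 1)) ℂ)
    (hhom : ∀ k, ∃ e, (G k).IsHomogeneous e) (halg : ∀ k s, IsAlgebraic ℚ ((G k).coeff s))
    (hdim : DimLE G m) (V : Set (Fin r → ℂ)) (hV : (idealOf V).IsPrime) (D : Fin n → ℕ)
    (g : (i : Fin n) → Fin (D i + 1) → ℍ → ℂ) (hg : System D g) (d : Fin r → ℕ) (e : Fin n → ℕ)
    (he : ∀ i, 0 < e i) (Γ : Finset ℂ)
    (Q₀ : ℕ) (hQ₀ : 0 < Q₀) (c₀ : Coeffs N r D d e) (u : Idx N r D d e → ℝ) (ε : ℝ) (hε : 0 < ε) :
    ∃ δ : ℝ, 0 < δ ∧ ∀ᶠ H : ℕ in Filter.atTop,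
      δ * (H : ℝ) ^ (Fintype.card (Idx N r D d e)) ≤
        Nat.card {c : Coeffs N r D d e // (∀ i, |(c i : ℝ) - H * u i| ≤ ε * H) ∧
          (∀ i, (Q₀ : ℤ) ∣ c i - c₀ i) ∧ NoAtypical Γ (total G g c V) m r (zdim V)} := by
  classical
  have hfin : Algebra.trdeg ℂ (MvPolynomial (Fin r) ℂ ⧸ idealOf V) < Cardinal.aleph0 :=
    trdeg_lt_aleph0_of_finiteType
  obtain ⟨dV, hd⟩ := Cardinal.lt_aleph0.1 hfin
  have h1 : ∃ t : Fin (m + 1) → Fin (N + 1) → ℂ, ∀ y : Fin (N + 1) → ℂ,
      (∀ k, eval y (G k) = 0) → (∀ b, ∑ j, t b j * y j = 0) → y = 0 := by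
    obtain ⟨t, ht⟩ := hdim
    refine ⟨t, fun y hy hb => ?_⟩
    by_contra h0
    obtain ⟨b, hb'⟩ := ht y ⟨h0, hy⟩
    exact hb' (hb b)
  choose M₁ A₁ hB₁ using hg.regular
  choose b hb using hg.cusps
  choose M₂ A₂ hA₂ hA₂0 hB₂ using hb
  obtain ⟨K, Q, Gt, hK, hQ, hmain⟩ := Pool.Agent.TH971.SR.exists_classL D b M₁ A₁ M₂ A₂ hA₂ hA₂0
    d e he (idealOf V) hd G hhom halg h1 Γ Q₀ hQ₀ c₀
  refine pos_proportion' Q hQ Gt _ (fun c hc => ?_) u ε hε
  obtain ⟨hc0, hkey⟩ := hmain c hc
  refine ⟨hc0, ?_⟩
  have hkey' : ∀ (z : Fin n → ℍ) (ρ : ℕ), InSpecial Γ (fun i => jj (z i)) ρ →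
      ∀ (y : Fin (N + 1) → ℂ) (j0 : Fin (N + 1)), y j0 = 1 → (y, z) ∈ total G g c V →
      ∀ (T1 : Finset (Fin (N + 1))) (T2 : Finset (Fin n)),
      AlgebraicIndependent K (Sum.elim (fun j : T1 => y j) (fun j : T2 => jj (z j))) →
      T1.card + T2.card + ρ + r ≤ m + dV := by
    rintro z ρ ⟨t, Z, hρ, hx⟩ y j0 hj0 hX T1 T2 hT
    have hrn : t ≤ n := by omega
    have h3 := hkey t Z.cls (fun i => jj (z i)) hrn (fun i hi => by
        obtain ⟨z', hz'⟩ := hx
        have h6 : jj (z i) = Z.const i := (hz' i).1 hi
        rw [h6]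
        exact (Z.allowed i).isIntegral) (fun i i' l hi hi' => rel_of_class Z hx hi hi')
      (fun i a => g i a (z i)) (fun i => hg.one i _) (fun i a => hB₁ i a _)
      (fun i a => hB₂ i a _) y j0 hj0
      hX.1.2 hX.2.1 hX.2.2 T1 T2 hT
    omega
  have hfinal : ∀ {T k : ℕ} {z : Cardinal}, z ≤ (T : Cardinal) → T + k + r ≤ m + dV →
      z + (k : Cardinal) + (r : Cardinal) ≤ (m : Cardinal) + zdim V := by
    intro T k z hz h
    calc z + (k : Cardinal) + (r : Cardinal)
        ≤ (T : Cardinal) + (k : Cardinal) + (r : Cardinal) := by gcongr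
      _ = ((T + k + r : ℕ) : Cardinal) := by push_cast; rfl
      _ ≤ ((m + dV : ℕ) : Cardinal) := by exact_mod_cast h
      _ = (m : Cardinal) + zdim V := by rw [zdim, hd]; push_cast; rfl
  intro ρ
  constructor
  · intro W p hW hcl hprime hp
    obtain ⟨w, hwW, hpw, T, hT, hdimW⟩ :=
      Pool.Agent.W282.LF.generic_dim_open K W hprime hcl p hp
    obtain ⟨⟨⟨y, z⟩, hyX, hwz⟩, hwS⟩ := hW w hwW hpw
    have hwz' : w = fun i => jj (z i) := funext hwz
    rw [hwz'] at hT hwS
    obtain ⟨j0, hj0⟩ : ∃ j0, y j0 ≠ 0 := by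
      by_contra hcon
      push Not at hcon
      exact hyX.1.1 (funext hcon)
    refine hfinal hdimW ?_
    have h3 := hkey' z ρ hwS ((y j0)⁻¹ • y) j0 (by
      rw [Pi.smul_apply, smul_eq_mul, inv_mul_cancel₀ hj0]) (scale_mem hhom hyX (inv_ne_zero hj0))
      ∅ T (by
        let g : ((∅ : Finset (Fin (N + 1))) ⊕ T) → T := Sum.elim
          (fun j => absurd j.2 (Finset.notMem_empty _)) id
        have hg : Function.Injective g := by
          rintro (x | x) (y | y) h
          · exact absurd x.2 (Finset.notMem_empty _)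
          · exact absurd x.2 (Finset.notMem_empty _)
          · exact absurd y.2 (Finset.notMem_empty _)
          · exact congrArg Sum.inr h
        have h5 := hT.comp g hg
        convert h5 using 1
        funext j
        rcases j with j | j
        · exact absurd j.2 (Finset.notMem_empty _)
        · rfl)
    rw [Finset.card_empty, zero_add] at h3
    exact h3
  · intro j₀ s σ W p hW hcl hprime hp
    obtain ⟨w, hwW, hpw, T, hT, hdimW⟩ :=
      Pool.Agent.W282.LF.generic_dim_open K W hprime hcl p hp
    obtain ⟨⟨y, z⟩, hzX, hzj, hzS, hwz⟩ := hW w hwW hpw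
    set T' : Finset (Fin (N + 1) ⊕ Fin n) := T.map σ.toEmbedding with hT'
    have hTT : ∀ j, j ∈ T' → σ.symm j ∈ T := by
      intro j hj
      obtain ⟨t, ht, h⟩ := Finset.mem_map.1 hj
      rw [← h]
      simpa using ht
    let g : T'.toLeft ⊕ T'.toRight → T := Sum.elim
      (fun j => ⟨σ.symm (Sum.inl j), hTT _ (Finset.mem_toLeft.1 j.2)⟩)
      (fun j => ⟨σ.symm (Sum.inr j), hTT _ (Finset.mem_toRight.1 j.2)⟩)
    have hg : Function.Injective g := by
      rintro (x | x) (y | y) h
      · have h1 := congrArg Subtype.val h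
        have h2 := Sum.inl_injective (σ.symm.injective h1)
        rw [Subtype.ext h2]
      · have h1 := congrArg Subtype.val h
        have h2 := σ.symm.injective h1
        exact absurd h2 Sum.inl_ne_inr
      · have h1 := congrArg Subtype.val h
        have h2 := σ.symm.injective h1
        exact absurd h2 Sum.inr_ne_inl
      · have h1 := congrArg Subtype.val h
        have h2 := Sum.inr_injective (σ.symm.injective h1)
        rw [Subtype.ext h2]
    refine hfinal hdimW ?_
    have h3 := hkey' z ρ hzS y j₀ hzj hzX T'.toLeft T'.toRight (by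
        have h5 := hT.comp g hg
        convert h5 using 1
        funext j
        rcases j with j | j
        · change y j = w (σ.symm (Sum.inl j))
          rw [hwz, Equiv.apply_symm_apply]
          rfl
        · change jj (z j) = w (σ.symm (Sum.inr j))
          rw [hwz, Equiv.apply_symm_apply]
          rfl)
    have hT2 : T'.toLeft.card + T'.toRight.card = T.card := by
      rw [Finset.card_toLeft_add_card_toRight, hT', Finset.card_map]
    rw [hT2] at h3
    exact h3

end Pool.Agent.Results.MP_0704bf_ag.RandomLevelStructures
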